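import Mathlib
import Pool.Agent.Lib.MP_9dddc4_co.Lower
import Pool.Agent.Lib.MP_9dddc4_co.Upper

namespace Pool.Agent.Results.MP_9dddc4_co.OrderU23

open Filter Pool.Agent.Lib.MP_9dddc4_co

/-- `U_2(n,3)` has order of magnitude `n^{4/3} / (log n)^{2/3}`. -/
theorem result : ∃ c C : ℝ, 0 < c ∧ 0 < C ∧ ∀ᶠ n : ℕ in atTop,
    c * ((n : ℝ) ^ (4 / 3 : ℝ) / (Real.log n) ^ (2 / 3 : ℝ)) ≤ (U 2 n 3 : ℝ) ∧
    (U 2 n 3 : ℝ) ≤ C * ((n : ℝ) ^ (4 / 3 : ℝ) / (Real.log n) ^ (2 / 3 : ℝ)) := by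
  refine ⟨1 / 3000, 10 ^ 12, by norm_num, by norm_num, ?_⟩
  filter_upwards [lower_bound_eventually, upper_bound_eventually] with n h1 h2
  exact ⟨by linarith [h1], h2⟩

end Pool.Agent.Results.MP_9dddc4_co.OrderU23
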