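import Mathlib
import Pool.Agent.Lib.MP_9dddc4_co.GLower
import Pool.Agent.Lib.MP_9dddc4_co.GUpperR

namespace Pool.Agent.Results.MP_9dddc4_co.UpToLogRK

open Filter Pool.Agent.Lib.MP_9dddc4_co

/-- For all `r ≥ 3` and all `k` with `r k ≥ 2 (r - 1) ^ 2 + 1` (so for `r = 3` and every `k ≥ 3`,
and in general for every `k ≥ 2 r - 3`), `U_k(n,r)` equals `n ^ (r (r-1) (k-1) / (r k - 1))` up to
a factor between a constant times `(log n) ^ (- r (k-1) / (r k - 1))` and a constant. -/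
theorem result (r k : ℕ) (hr : 3 ≤ r) (hk : 2 * (r - 1) ^ 2 + 1 ≤ r * k) :
    ∃ c C : ℝ, 0 < c ∧ 0 < C ∧ ∀ᶠ n : ℕ in atTop,
    c * ((n : ℝ) ^ ((r : ℝ) * (r - 1) * (k - 1) / (r * k - 1)) /
      (Real.log n) ^ ((r : ℝ) * (k - 1) / (r * k - 1))) ≤ (U k n r : ℝ) ∧
    (U k n r : ℝ) ≤ C * (n : ℝ) ^ ((r : ℝ) * (r - 1) * (k - 1) / (r * k - 1)) := by
  obtain ⟨q, rfl⟩ : ∃ q, r = q + 1 := ⟨r - 1, by omega⟩
  have hq : 2 ≤ q := by omega
  simp only [Nat.add_sub_cancel] at hk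
  have hk3 : 2 ≤ k := by
    by_contra hlt
    have hk1 : k ≤ 1 := by omega
    have : (q + 1) * k ≤ (q + 1) * 1 := Nat.mul_le_mul_left _ hk1
    nlinarith
  obtain ⟨j, rfl⟩ : ∃ j, k = j + 1 := ⟨k - 1, by omega⟩
  obtain ⟨c, hc, hlow⟩ := lower_general q j (by omega) (by omega)
  obtain ⟨C, hC, hup⟩ := upper_generalR q (j + 1) hq hk3 hk
  refine ⟨c, C, hc, hC, ?_⟩
  filter_upwards [hlow, eventually_ge_atTop 3] with n h1 hn
  have hn1 : 1 ≤ n := by omega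
  have hn0 : (0 : ℝ) < n := by exact_mod_cast hn1
  have hlog : 0 < Real.log n := by
    apply Real.log_pos
    have : (3 : ℝ) ≤ n := by exact_mod_cast hn
    linarith
  constructor
  · refine le_trans (le_of_eq ?_) h1
    congr 1
    have hjR : (0 : ℝ) ≤ j := Nat.cast_nonneg _
    have hqR : (2 : ℝ) ≤ q := by exact_mod_cast hq
    have hden : (((q + 1 : ℕ) : ℝ) * ((j + 1 : ℕ) : ℝ) - 1) = (((q + 1) * j + q : ℕ) : ℝ) := by
      push_cast; ring
    have hden0 : (0 : ℝ) < (((q + 1) * j + q : ℕ) : ℝ) := by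
      push_cast
      nlinarith
    rw [hden]
    rw [Real.mul_rpow (by positivity) hlog.le, ← Real.rpow_natCast, ← Real.rpow_mul hn0.le]
    have h2 : ((((q + 1) * j : ℕ) : ℝ)) * ((q : ℝ) / (((q + 1) * j + q : ℕ) : ℝ)) =
        ((q + 1 : ℕ) : ℝ) * (((q + 1 : ℕ) : ℝ) - 1) * (((j + 1 : ℕ) : ℝ) - 1) /
          (((q + 1) * j + q : ℕ) : ℝ) := by
      push_cast; ring
    rw [h2]
    have h3 : (Real.log n) ^ ((q : ℝ) / (((q + 1) * j + q : ℕ) : ℝ)) / Real.log n =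
        ((Real.log n) ^ (((q + 1 : ℕ) : ℝ) * (((j + 1 : ℕ) : ℝ) - 1) /
          (((q + 1) * j + q : ℕ) : ℝ)))⁻¹ := by
      rw [← Real.rpow_neg hlog.le, ← Real.rpow_sub_one hlog.ne']
      congr 1
      rw [div_sub_one hden0.ne', ← neg_div]
      congr 1
      push_cast
      ring
    refine (div_eq_mul_inv _ _).trans ?_
    rw [← h3]
    exact (mul_div_assoc _ _ _).symm
  · have h4 := hup n hn1
    refine h4.trans (le_of_eq ?_)
    congr 2
    push_cast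
    ring

end Pool.Agent.Results.MP_9dddc4_co.UpToLogRK
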